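import Pool.Agent.PX.Stmts

set_option autoImplicit false

/-!
# Squad PX, row DDX: `d` applications of a derivation to `H q_1 ⋯ q_d`
-/

namespace Pool.Agent.PX.H86

open MvPolynomial
open Pool.Agent.RS (FF io)
open Pool.Agent.PW (dd)

theorem ddx_filt_mul {E : Type} [Field E] {ρ c0 k : ℕ} {y : Fin ρ → MvPolynomial ℕ E}
    {J1 : Finset ℕ} {Fi : ℕ → FF E → Prop} (hF : Filt c0 k y J1 Fi) (j : ℕ) (v w : FF E)
    (hv : Fi 0 v) (hw : Fi j w) : Fi j (v * w) := by
  have := hF.mul 0 j v w hv hw
  rwa [Nat.zero_add] at this

theorem ddx_filt_const {E : Type} [Field E] {ρ c0 k : ℕ} {y : Fin ρ → MvPolynomial ℕ E}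
    {J1 : Finset ℕ} {Fi : ℕ → FF E → Prop} (hF : Filt c0 k y J1 Fi) (c : E) :
    Fi 0 (algebraMap E (FF E) c) := by
  have h := hF.poly (C c)
  have e : io E (C c) = algebraMap E (FF E) c := by
    rw [IsScalarTower.algebraMap_apply E (MvPolynomial ℕ E) (FF E)]
    rfl
  rwa [e] at h

/-- Leibniz for a factor with constant derivative. -/
theorem ddx_iter {E : Type} [Field E] (δ : Derivation E (FF E) (FF E)) (x g : FF E) (c : E)
    (hx : δ x = algebraMap E (FF E) c) (n : ℕ) :
    (fun x => δ x)^[n + 1] (x * g) = x * (fun x => δ x)^[n + 1] g +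
      algebraMap E (FF E) (((n : E) + 1) * c) * (fun x => δ x)^[n] g := by
  induction n with
  | zero =>
    simp only [zero_add, Function.iterate_one, Function.iterate_zero, id_eq, Nat.cast_zero, one_mul]
    rw [Derivation.leibniz, smul_eq_mul, smul_eq_mul, hx, mul_comm g]
  | succ n ih =>
    rw [Function.iterate_succ_apply' (fun x => δ x) (n + 1) (x * g), ih,
      Function.iterate_succ_apply' (fun x => δ x) (n + 1) g,
      Function.iterate_succ_apply' (fun x => δ x) n g]
    rw [map_add, Derivation.leibniz, Derivation.leibniz, Derivation.map_algebraMap]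
    simp only [smul_eq_mul]
    rw [hx]
    push_cast
    ring

/-- ROW DDX. -/
theorem ddx : DdxStmt := by
  intro E _ ρ c0 k y J1 Fi hF δ h0 h1
  refine ⟨?_, ?_⟩
  · intro d
    induction d with
    | zero => intro j w h; simpa using h
    | succ d ih =>
      intro j w h
      rw [Function.iterate_succ_apply]
      refine ih j _ (h1 (j + d) w ?_)
      simpa [add_assoc] using h
  · intro q κ
    induction q with
    | nil =>
      intro H _ hH
      simpa using hF.zero 1
    | cons x q ih =>
      intro H hq hH
      have hx := hq x (List.mem_cons_self)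
      have hq' : ∀ z ∈ q, Fi 1 z ∧ δ z = algebraMap E (FF E) (κ z) := fun z hz =>
        hq z (List.mem_cons_of_mem _ hz)
      have hprod : Fi 0 (H * q.prod) := by
        have hqp : ∀ l : List (FF E), (∀ z ∈ l, Fi 0 z) → Fi 0 l.prod := by
          intro l
          induction l with
          | nil => intro _; simpa using hF.poly 1
          | cons a l ihl =>
            intro hl
            rw [List.prod_cons]
            exact ddx_filt_mul hF 0 _ _ (hl a List.mem_cons_self)
              (ihl fun z hz => hl z (List.mem_cons_of_mem _ hz))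
        exact ddx_filt_mul hF 0 _ _ hH (hqp q fun z hz => hF.mono 0 z (hq' z hz).1)
      have hit : ∀ (n : ℕ) (w : FF E), Fi 0 w → Fi 0 ((fun x => δ x)^[n] w) := by
        intro n
        induction n with
        | zero => intro w h; simpa using h
        | succ n ihn =>
          intro w h
          rw [Function.iterate_succ_apply]
          exact ihn _ (h0 w h)
      have key := ddx_iter δ x (H * q.prod) (κ x) hx.2 q.length
      have hA : Fi 1 (x * (fun x => δ x)^[q.length + 1] (H * q.prod)) := by
        rw [mul_comm]
        exact ddx_filt_mul hF 1 _ _ (hit _ _ hprod) hx.1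
      have hB : Fi 1 (algebraMap E (FF E) (((q.length : E) + 1) * κ x) *
          ((fun x => δ x)^[q.length] (H * q.prod) -
            algebraMap E (FF E) ((q.length.factorial : E) * (q.map κ).prod) * H)) :=
        ddx_filt_mul hF 1 _ _ (ddx_filt_const hF _) (ih H hq' hH)
      have hAB := hF.add 1 _ _ hA hB
      have e : (fun x => δ x)^[(x :: q).length] (H * (x :: q).prod) -
          algebraMap E (FF E) (((x :: q).length.factorial : E) * ((x :: q).map κ).prod) * H =
          x * (fun x => δ x)^[q.length + 1] (H * q.prod) +
          algebraMap E (FF E) (((q.length : E) + 1) * κ x) *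
          ((fun x => δ x)^[q.length] (H * q.prod) -
            algebraMap E (FF E) ((q.length.factorial : E) * (q.map κ).prod) * H) := by
        rw [List.length_cons, List.prod_cons, List.map_cons, List.prod_cons,
          show H * (x * q.prod) = x * (H * q.prod) by ring, key, Nat.factorial_succ]
        push_cast
        ring
      rw [e]
      exact hAB

end Pool.Agent.PX.H86
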